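import Pool.Agent.Run7.h787.ST.Iface

/-!
# Piece NSUM of the project ST of helper787
-/

set_option autoImplicit false

open NumberField IsDedekindDomain

namespace Run7.h298.ST

open Pool.Agent.Run7.h787.ST

variable {K : Type} [Field K] [NumberField K] [Algebra K ℝ]

/-- The field on which two automorphisms agree. -/
def eqF {L : IntermediateField K ℝ} (σ σ' : L ≃ₐ[K] L) : IntermediateField K L where
  carrier := {x | σ x = σ' x}
  mul_mem' := by
    intro x y hx hy
    simp only [Set.mem_ofPred_eq] at hx hy ⊢
    rw [map_mul, map_mul, hx, hy]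
  add_mem' := by
    intro x y hx hy
    simp only [Set.mem_ofPred_eq] at hx hy ⊢
    rw [map_add, map_add, hx, hy]
  algebraMap_mem' := by
    intro x
    simp only [Set.mem_ofPred_eq]
    rw [AlgEquiv.commutes, AlgEquiv.commutes]
  inv_mem' := by
    intro x hx
    simp only [Set.mem_ofPred_eq] at hx ⊢
    rw [map_inv₀, map_inv₀, hx]

lemma mem_eqF {L : IntermediateField K ℝ} (σ σ' : L ≃ₐ[K] L) (x : L) :
    x ∈ eqF σ σ' ↔ σ x = σ' x := Iff.rfl

lemma ext_ext {H : IntermediateField K ℝ} {a : ℝ} (σ σ' : Gal (ext H a))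
    (h1 : ∀ y : ext H a, (y : ℝ) ∈ H → σ y = σ' y) (h2 : ∀ y : ext H a, (y : ℝ) = a → σ y = σ' y) :
    σ = σ' := by
  have hle : ext H a ≤ IntermediateField.lift (eqF σ σ') := by
    have hH : H ≤ IntermediateField.lift (eqF σ σ') := by
      intro x hx
      have hx' : x ∈ ext H a := (le_sup_left : H ≤ ext H a) hx
      have : ((⟨x, hx'⟩ : ext H a) : ℝ) ∈ IntermediateField.lift (eqF σ σ') := by
        rw [IntermediateField.mem_lift, mem_eqF]
        exact h1 _ hx
      exact this
    have hA : IntermediateField.adjoin K {a} ≤ IntermediateField.lift (eqF σ σ') := by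
      rw [IntermediateField.adjoin_le_iff]
      intro x hx
      rw [Set.mem_singleton_iff] at hx
      subst hx
      have hx' : x ∈ ext H x := (le_sup_right : IntermediateField.adjoin K {x} ≤ ext H x)
        (IntermediateField.mem_adjoin_simple_self K x)
      have : ((⟨x, hx'⟩ : ext H x) : ℝ) ∈ IntermediateField.lift (eqF σ σ') := by
        rw [IntermediateField.mem_lift, mem_eqF]
        exact h2 _ rfl
      exact this
    exact sup_le hH hA
  ext x
  have := hle x.2
  rw [IntermediateField.mem_lift, mem_eqF] at this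
  rw [this]

theorem t_NSUM : S_NSUM := by
  classical
  intro K _ _ _ H a hH hL ha ha2 r hr hsurj T hT hrT ε N hε hN χ
  have := hH.1
  have := hL.1
  have : Fintype (Gal H) := Fintype.ofFinite _
  have : Fintype (Gal (ext H a)) := Fintype.ofFinite _
  have hHL : H ≤ ext H a := le_sup_left
  have haL : a ∈ ext H a := (le_sup_right : IntermediateField.adjoin K {a} ≤ ext H a)
    (IntermediateField.mem_adjoin_simple_self K a)
  set a' : ext H a := ⟨a, haL⟩ with ha'
  -- elements of the kernel fix `H`
  have hker : ∀ g : Gal (ext H a), r g = 1 → ∀ y : ext H a, (y : ℝ) ∈ H → g y = y := by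
    intro g hg y hy
    have h1 := hr g ⟨(y : ℝ), hy⟩ y rfl
    rw [hg] at h1
    exact Subtype.ext (by simpa using h1.symm)
  have hkerT : ∀ g : Gal (ext H a), r g = 1 → g = 1 ∨ g = T := by
    intro g hg
    have h1 : g a' ^ 2 = a' ^ 2 := by
      rw [← map_pow]
      exact hker g hg _ (by simpa [ha'] using ha2)
    rcases sq_eq_sq_iff_eq_or_eq_neg.1 h1 with h | h
    · left
      refine ext_ext _ _ (fun y hy => ?_) (fun y hy => ?_)
      · rw [hker g hg y hy]; rfl
      · have : y = a' := Subtype.ext hy
        rw [this, h]; rfl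
    · right
      refine ext_ext _ _ (fun y hy => ?_) (fun y hy => ?_)
      · rw [hker g hg y hy, hker T hrT y hy]
      · have : y = a' := Subtype.ext hy
        rw [this, h, hT a' rfl]
  have hT1 : T ≠ 1 := by
    intro h
    have h1 := hT a' rfl
    rw [h] at h1
    have h2 : (a' : ext H a) = - a' := h1
    have h3 : a = - a := congrArg (fun x : ext H a => (x : ℝ)) h2
    have h4 : a = 0 := by linarith
    exact ha (h4 ▸ H.zero_mem)
  rw [finsum_eq_sum_of_fintype, finsum_eq_sum_of_fintype,
    ← Finset.sum_fiberwise Finset.univ (fun g => r g)]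
  refine Finset.sum_congr rfl fun g _ => ?_
  obtain ⟨g0, rfl⟩ := hsurj g
  have hfib : (Finset.univ.filter fun g' => r g' = r g0) = {g0, g0 * T} := by
    ext g'
    simp only [Finset.mem_filter, Finset.mem_univ, true_and, Finset.mem_insert,
      Finset.mem_singleton]
    constructor
    · intro h
      have h1 : r (g0⁻¹ * g') = 1 := by rw [map_mul, map_inv, h]; simp
      rcases hkerT _ h1 with h2 | h2
      · left
        exact (inv_mul_eq_one.1 h2).symm
      · right
        rw [← h2]; simp
    · rintro (rfl | rfl)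
      · rfl
      · rw [map_mul, hrT, mul_one]
  have hne : g0 ≠ g0 * T := by
    intro h
    apply hT1
    have : g0 * 1 = g0 * T := by rw [mul_one]; exact h
    exact (mul_left_cancel this).symm
  rw [hfib, Finset.sum_pair hne]
  have hr2 : r (g0 * T) = r g0 := by rw [map_mul, hrT, mul_one]
  rw [hr2, ← mul_add]
  congr 1
  rw [← Complex.ofReal_add]
  congr 1
  have h1 : ((g0 ε : ext H a) : ℝ) ≠ 0 := by
    intro h
    have : g0 ε = 0 := Subtype.ext h
    exact hε (by simpa using this)
  have h2 : (((g0 * T) ε : ext H a) : ℝ) ≠ 0 := by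
    intro h
    have : (g0 * T) ε = 0 := Subtype.ext h
    exact hε (by simpa using this)
  rw [← Real.log_mul (abs_ne_zero.2 h1) (abs_ne_zero.2 h2), ← abs_mul]
  congr 2
  rw [hr g0 N (ε * T ε) hN]
  rw [map_mul]
  rfl

end Run7.h298.ST


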